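import Pool.Agent.RAT.T12.Main

/-!
Project EVN, final part: transfer of the bound `a_(n+m) ≤ C n^(-c) a_n a_m` (`1 ≤ n ≤ m`) from the honeycomb lattice to the lattice `(3,12^2)`.

PAPER PROOF. `pp k N = P(S_k = N)`, steps `2` or `3`. At the first `j` with `S_j ≥ N`: `S_j = N + e`, `e ≤ 2`, so
`pp k (N + M) ≤ ∑ e < 3, ∑ j ≤ k, pp j (N + e) pp (k - j) (M - e)`. For nonzero terms `j ≥ N / 3`, `k - j ≥ (M - e) / 3`. Hence
`SS (N + M) ≤ C (n / 9)^(-c) ∑ e, SS (N + e) SS (M - e)`.
-/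

namespace Pool.Agent.EVN.T

open Pool.Agent.Hhelper14.SAW Pool.Agent.Hhelper64.T12 Pool.Agent.RAT.T12 Finset

/-- First passage over `N`. -/
lemma pp_split {M : ℕ} (hM : 2 ≤ M) : ∀ k N : ℕ, pp k (N + M) ≤
    ∑ e ∈ range 3, ∑ p ∈ antidiagonal k, pp p.1 (N + e) * pp p.2 (M - e) := by
  have hx := xx_pos
  have hmu := mu_pos
  intro k
  induction k with
  | zero =>
    intro N
    rw [pp_zero, if_neg (by omega)]
    exact sum_nonneg fun e _ => sum_nonneg fun p _ => mul_nonneg (pp_nonneg _ _) (pp_nonneg _ _)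
  | succ k ih =>
    intro N
    have nn : ∀ (e N' : ℕ), 0 ≤ ∑ p ∈ antidiagonal (k + 1), pp p.1 (N' + e) * pp p.2 (M - e) := fun e N' =>
      sum_nonneg fun p _ => mul_nonneg (pp_nonneg _ _) (pp_nonneg _ _)
    -- one step first
    have one : ∀ (e N' : ℕ), ∑ p ∈ antidiagonal (k + 1), pp p.1 (N' + e) * pp p.2 (M - e) =
        pp 0 (N' + e) * pp (k + 1) (M - e) + ∑ p ∈ antidiagonal k, pp (p.1 + 1) (N' + e) * pp p.2 (M - e) := by
      intro e N'
      rw [Finset.Nat.antidiagonal_succ, sum_cons, sum_map]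
      rfl
    have hp11 : ∀ n : ℕ, pp 1 n = (if n = 2 then mu * xx ^ 2 else 0) + (if n = 3 then mu * xx ^ 3 else 0) := by
      intro n
      rw [pp_succ]
      congr 1
      · by_cases h : n = 2
        · subst h
          rw [if_pos (by norm_num), pp_zero, if_pos rfl, if_pos rfl, mul_one]
        · rw [if_neg h]
          split_ifs with h2
          · rw [pp_zero, if_neg (by omega), mul_zero]
          · rfl
      · by_cases h : n = 3
        · subst h
          rw [if_pos (by norm_num), pp_zero, if_pos rfl, if_pos rfl, mul_one]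
        · rw [if_neg h]
          split_ifs with h2
          · rw [pp_zero, if_neg (by omega), mul_zero]
          · rfl
    -- the term of the first step
    have term1 : ∀ (e N' : ℕ), pp 1 (N' + e) * pp k (M - e) ≤
        ∑ p ∈ antidiagonal (k + 1), pp p.1 (N' + e) * pp p.2 (M - e) := by
      intro e N'
      refine single_le_sum (f := fun p : ℕ × ℕ => pp p.1 (N' + e) * pp p.2 (M - e))
        (fun p _ => mul_nonneg (pp_nonneg _ _) (pp_nonneg _ _)) (a := (1, k)) ?_
      rw [HasAntidiagonal.mem_antidiagonal]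
      ring
    match N with
    | 0 =>
      have h1 : pp (k + 1) M ≤ ∑ p ∈ antidiagonal (k + 1), pp p.1 (0 + 0) * pp p.2 (M - 0) := by
        have := single_le_sum (f := fun p : ℕ × ℕ => pp p.1 (0 + 0) * pp p.2 (M - 0))
          (fun p _ => mul_nonneg (pp_nonneg _ _) (pp_nonneg _ _)) (s := antidiagonal (k + 1)) (a := (0, k + 1))
          (by rw [HasAntidiagonal.mem_antidiagonal]; ring)
        refine le_trans (le_of_eq ?_) this
        simp only [add_zero, Nat.sub_zero]
        rw [pp_zero, if_pos rfl, one_mul]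
      rw [zero_add, sum_range_succ, sum_range_succ, sum_range_one]
      have h2 := nn 1 0
      have h3 := nn 2 0
      linarith
    | 1 =>
      rw [pp_succ, if_pos (by omega), if_pos (by omega), show 1 + M - 2 = M - 1 by omega,
        show 1 + M - 3 = M - 2 by omega, sum_range_succ, sum_range_succ, sum_range_one]
      have h1 := nn 0 1
      have h2 := term1 1 1
      have h3 := term1 2 1
      rw [hp11, if_pos (by norm_num), if_neg (by norm_num), add_zero] at h2
      rw [hp11, if_neg (by norm_num), if_pos (by norm_num), zero_add] at h3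
      linarith
    | 2 =>
      rw [pp_succ, if_pos (by omega), if_pos (by omega), show 2 + M - 2 = M - 0 by omega,
        show 2 + M - 3 = M - 1 by omega, sum_range_succ, sum_range_succ, sum_range_one]
      have h1 := nn 2 2
      have h2 := term1 0 2
      have h3 := term1 1 2
      rw [hp11, if_pos (by norm_num), if_neg (by norm_num), add_zero] at h2
      rw [hp11, if_neg (by norm_num), if_pos (by norm_num), zero_add] at h3
      linarith
    | N + 3 =>
      rw [pp_succ, if_pos (by omega), if_pos (by omega), show N + 3 + M - 2 = (N + 1) + M by omega,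
        show N + 3 + M - 3 = N + M by omega]
      have i1 := mul_le_mul_of_nonneg_left (ih (N + 1)) (by positivity : 0 ≤ mu * xx ^ 2)
      have i2 := mul_le_mul_of_nonneg_left (ih N) (by positivity : 0 ≤ mu * xx ^ 3)
      refine (add_le_add i1 i2).trans ?_
      rw [mul_sum, mul_sum, ← sum_add_distrib]
      refine sum_le_sum fun e _ => ?_
      rw [one e (N + 3), mul_sum, mul_sum, ← sum_add_distrib, pp_zero, if_neg (by omega), zero_mul, zero_add]
      refine le_of_eq (sum_congr rfl fun p _ => ?_)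
      rw [pp_succ p.1 (N + 3 + e), if_pos (by omega), if_pos (by omega), show N + 3 + e - 2 = N + 1 + e by omega,
        show N + 3 + e - 3 = N + e by omega]
      ring

lemma pp_zero_of {k n : ℕ} (h : 3 * k < n) : pp k n = 0 := by
  unfold pp; rw [cnt_eq_zero k n (Or.inr h)]; simp

/-- The bound for `A` from the bound for `a`. -/
lemma AA_mul {C c : ℝ} (hC : 0 < C) (hc : 0 < c)
    (hU : ∀ n m : ℕ, 1 ≤ n → n ≤ m → (an (n + m) : ℝ) ≤ C * (n : ℝ) ^ (-c) * ((an n : ℝ) * an m)) {j i : ℕ} {r : ℝ}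
    (hr : 0 < r) (hj : r ≤ j) (hi : r ≤ i) : AA (j + i) ≤ C * r ^ (-c) * (AA j * AA i) := by
  have main : ∀ j i : ℕ, r ≤ j → j ≤ i → AA (j + i) ≤ C * r ^ (-c) * (AA j * AA i) := by
    intro j i hj hji
    have hj0 : (0 : ℝ) < j := hr.trans_le hj
    have hj1 : 1 ≤ j := by
      have : 0 < j := by exact_mod_cast hj0
      omega
    have h1 := hU j i hj1 hji
    have h2 : (j : ℝ) ^ (-c) ≤ r ^ (-c) := Real.rpow_le_rpow_of_nonpos hr hj (by linarith)
    unfold AA
    rw [div_mul_div_comm, ← pow_add, ← mul_div_assoc]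
    refine div_le_div_of_nonneg_right ?_ (pow_pos mu_pos _).le
    refine h1.trans ?_
    gcongr
  rcases le_total j i with h | h
  · exact main j i hj h
  · have := main i j hi h
    rw [add_comm i j, mul_comm (AA i)] at this
    exact this

/-- The sums. -/
lemma SS_mul {C c : ℝ} (hC : 0 < C) (hc : 0 < c)
    (hU : ∀ n m : ℕ, 1 ≤ n → n ≤ m → (an (n + m) : ℝ) ≤ C * (n : ℝ) ^ (-c) * ((an n : ℝ) * an m)) {N M : ℕ}
    (hN : 1 ≤ N) (hNM : N ≤ M) (hM : 3 ≤ M) :
    SS (N + M) ≤ C * ((N : ℝ) / 9) ^ (-c) * ∑ e ∈ range 3, SS (N + e) * SS (M - e) := by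
  have hN0 : (0 : ℝ) < N := by exact_mod_cast hN
  have hr : (0 : ℝ) < (N : ℝ) / 9 := by positivity
  set B : ℝ := C * ((N : ℝ) / 9) ^ (-c) with hB
  have hB0 : 0 < B := by positivity
  set Q := N + M + 5 with hQ
  have key : ∀ k, AA k * pp k (N + M) ≤ B * ∑ e ∈ range 3, ∑ p ∈ antidiagonal k,
      (AA p.1 * pp p.1 (N + e)) * (AA p.2 * pp p.2 (M - e)) := by
    intro k
    have hA := AA_ge k
    refine (mul_le_mul_of_nonneg_left (pp_split (by omega) k N) (by linarith)).trans ?_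
    rw [mul_sum, mul_sum]
    refine sum_le_sum fun e he => ?_
    rw [mem_range] at he
    rw [mul_sum, mul_sum]
    refine sum_le_sum fun p hp => ?_
    rw [HasAntidiagonal.mem_antidiagonal] at hp
    by_cases h1 : 3 * p.1 < N + e
    · rw [pp_zero_of h1]
      simp
    by_cases h2 : 3 * p.2 < M - e
    · rw [pp_zero_of h2]
      simp
    have h3 : (N : ℝ) / 9 ≤ p.1 := by
      have : (N : ℝ) ≤ 3 * p.1 := by exact_mod_cast (by omega : N ≤ 3 * p.1)
      linarith
    have h4 : (N : ℝ) / 9 ≤ p.2 := by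
      have : N ≤ 9 * p.2 := by omega
      have : (N : ℝ) ≤ 9 * p.2 := by exact_mod_cast this
      linarith
    have h5 := AA_mul hC hc hU hr h3 h4
    rw [hp, ← hB] at h5
    have h6 := pp_nonneg p.1 (N + e)
    have h7 := pp_nonneg p.2 (M - e)
    calc AA k * (pp p.1 (N + e) * pp p.2 (M - e)) ≤ (B * (AA p.1 * AA p.2)) * (pp p.1 (N + e) * pp p.2 (M - e)) := by
          gcongr
      _ = _ := by ring
  have hS : SS (N + M) = ∑ k ∈ range Q, AA k * pp k (N + M) := (SS_eq (by omega)).symm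
  rw [hS]
  refine (sum_le_sum fun k _ => key k).trans ?_
  rw [← mul_sum, sum_comm]
  refine mul_le_mul_of_nonneg_left (sum_le_sum fun e he => ?_) hB0.le
  rw [mem_range] at he
  have e1 : SS (N + e) = ∑ k ∈ range Q, AA k * pp k (N + e) := (SS_eq (by omega)).symm
  have e2 : SS (M - e) = ∑ k ∈ range Q, AA k * pp k (M - e) := (SS_eq (by omega)).symm
  rw [e1, e2, sum_mul_sum, ← sum_product']
  have hf : ∀ k, ∑ p ∈ antidiagonal k, (AA p.1 * pp p.1 (N + e)) * (AA p.2 * pp p.2 (M - e)) =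
      ∑ p ∈ antidiagonal k, (fun p : ℕ × ℕ => (AA p.1 * pp p.1 (N + e)) * (AA p.2 * pp p.2 (M - e))) p := fun k => rfl
  rw [sum_congr rfl fun k _ => hf k, ← sum_sigma (range Q) (fun k => antidiagonal k)
    (fun x => (fun p : ℕ × ℕ => (AA p.1 * pp p.1 (N + e)) * (AA p.2 * pp p.2 (M - e))) x.2)]
  have hinj : Set.InjOn (fun x : (_ : ℕ) × (ℕ × ℕ) => x.2) ((range Q).sigma fun k => antidiagonal k) := by
    rintro ⟨k, p⟩ h1 ⟨k', p'⟩ h2 h3
    rw [mem_coe, mem_sigma, HasAntidiagonal.mem_antidiagonal] at h1 h2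
    simp only at h3
    subst h3
    have h4 := h1.2
    have h5 := h2.2
    simp only at h4 h5
    subst h4
    subst h5
    rfl
  rw [← sum_image (f := fun p : ℕ × ℕ => (AA p.1 * pp p.1 (N + e)) * (AA p.2 * pp p.2 (M - e))) hinj]
  refine sum_le_sum_of_subset_of_nonneg ?_ ?_
  · intro p hp
    obtain ⟨⟨k, q⟩, h1, rfl⟩ := mem_image.1 hp
    rw [mem_sigma, HasAntidiagonal.mem_antidiagonal, mem_range] at h1
    rw [mem_product, mem_range, mem_range]
    have h2 := h1.1
    have h3 := h1.2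
    simp only at h2 h3 ⊢
    omega
  · intro p _ _
    have h1 := AA_ge p.1
    have h2 := AA_ge p.2
    have h3 := pp_nonneg p.1 (N + e)
    have h4 := pp_nonneg p.2 (M - e)
    positivity

/-- **The transfer.** -/
theorem tr12 (h : ∃ C : ℝ, 0 < C ∧ ∀ n : ℕ, 1 ≤ n → (an n : ℝ) ≤ C * (n : ℝ) ^ C * mu ^ n) {c : ℝ} (hc : 0 < c)
    (hU : ∃ C : ℝ, 0 < C ∧ ∀ n m : ℕ, 1 ≤ n → n ≤ m → (an (n + m) : ℝ) ≤ C * (n : ℝ) ^ (-c) * ((an n : ℝ) * an m)) :
    ∃ C : ℝ, 0 < C ∧ ∀ n m : ℕ, 1 ≤ n → n ≤ m → (bn (n + m) : ℝ) ≤ C * (n : ℝ) ^ (-c) * ((bn n : ℝ) * bn m) := by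
  obtain ⟨C, hC, hU⟩ := hU
  obtain ⟨N₀, hN₀⟩ := SS_cmp h
  obtain ⟨N₁, hN₁⟩ := bn_le_SS h
  have hx := xx_pos
  have hx1 := xx_lt
  set F : ℝ := 1 + bn 1 + bn 2 with hF
  have hb1 : (0 : ℝ) ≤ bn 1 := Nat.cast_nonneg _
  have hb2 : (0 : ℝ) ≤ bn 2 := Nat.cast_nonneg _
  have hF0 : 1 ≤ F := by rw [hF]; linarith
  set M0 : ℕ := N₀ + N₁ + 40 with hM0
  have hM00 : (0 : ℝ) < M0 := by exact_mod_cast (by omega : 0 < M0)
  set K : ℝ := 4320 * (C * 9 ^ c * (3 * (3 / 2 * F * (4 * (3 / 2))))) with hK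
  have hK0 : 0 < K := by positivity
  refine ⟨K + (M0 : ℝ) ^ c, by positivity, fun n m hn hnm => ?_⟩
  have hn0 : (0 : ℝ) < n := by exact_mod_cast hn
  have hbn0 : (0 : ℝ) ≤ bn n := Nat.cast_nonneg _
  have hbm0 : (0 : ℝ) ≤ bn m := Nat.cast_nonneg _
  have hnc : 0 < (n : ℝ) ^ (-c) := Real.rpow_pos_of_pos hn0 _
  rcases Nat.lt_or_ge m M0 with hm | hm
  · have h1 : (bn (n + m) : ℝ) ≤ bn n * bn m := by exact_mod_cast bn_submul n m
    have h2 : 1 ≤ (M0 : ℝ) ^ c * (n : ℝ) ^ (-c) := by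
      rw [Real.rpow_neg hn0.le, ← div_eq_mul_inv, one_le_div (Real.rpow_pos_of_pos hn0 _)]
      exact Real.rpow_le_rpow hn0.le (by exact_mod_cast (by omega : n ≤ M0)) hc.le
    calc (bn (n + m) : ℝ) ≤ 1 * ((bn n : ℝ) * bn m) := by rw [one_mul]; exact h1
      _ ≤ ((M0 : ℝ) ^ c * (n : ℝ) ^ (-c)) * ((bn n : ℝ) * bn m) := by gcongr
      _ ≤ (K + (M0 : ℝ) ^ c) * (n : ℝ) ^ (-c) * ((bn n : ℝ) * bn m) := by
          gcongr
          linarith
  · have h1 := hN₁ (n + m) (by omega)
    have h2 := SS_mul hC hc hU hn hnm (by omega : 3 ≤ m)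
    have hxn : 0 < xx ^ n := pow_pos hx n
    have hxm : 0 < xx ^ m := pow_pos hx m
    -- upper sums
    have h3 : ∀ e, e < 3 → SS (n + e) ≤ 3 / 2 * F * (bn n * xx ^ n) := by
      intro e he
      have g1 := SS_le_bn (n + e)
      have g2 : (bn (n + e) : ℝ) ≤ bn n * bn e := by exact_mod_cast bn_submul n e
      have g3 : (bn e : ℝ) ≤ F := by
        interval_cases e
        · rw [bn_zero, hF]; push_cast; linarith
        · rw [hF]; linarith
        · rw [hF]; linarith
      have g4 : xx ^ (n + e) ≤ xx ^ n := pow_le_pow_of_le_one hx.le hx1.le (Nat.le_add_right n e)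
      have g5 : (bn (n + e) : ℝ) * xx ^ (n + e) ≤ (bn n * F) * xx ^ n := by
        calc (bn (n + e) : ℝ) * xx ^ (n + e) ≤ (bn n * bn e) * xx ^ (n + e) := by gcongr
          _ ≤ (bn n * F) * xx ^ n := by gcongr
      nlinarith
    have h4 : ∀ e, e < 3 → SS (m - e) ≤ 4 * (3 / 2) * (bn m * xx ^ m) := by
      intro e he
      have g1 := SS_le_bn m
      have g2 : SS (m - e) ≤ 4 * SS m := by
        rcases Nat.eq_zero_or_pos e with rfl | he0
        · have := SS_nonneg m
          rw [Nat.sub_zero]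
          linarith
        · have he5 : e ^ 5 ≤ 2 ^ 5 := Nat.pow_le_pow_left (by omega) 5
          have h5 := (hN₀ e (m - e) he0 (by omega) (by omega)).1
          rw [show m - e + e = m by omega] at h5
          linarith
      linarith
    have h5 : ∑ e ∈ range 3, SS (n + e) * SS (m - e) ≤
        3 * ((3 / 2 * F * (bn n * xx ^ n)) * (4 * (3 / 2) * (bn m * xx ^ m))) := by
      have : ∀ e ∈ range 3, SS (n + e) * SS (m - e) ≤ (3 / 2 * F * (bn n * xx ^ n)) * (4 * (3 / 2) * (bn m * xx ^ m)) := by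
        intro e he
        rw [mem_range] at he
        exact mul_le_mul (h3 e he) (h4 e he) (SS_nonneg _) (by positivity)
      refine (sum_le_sum this).trans (le_of_eq ?_)
      rw [sum_const, card_range, nsmul_eq_mul]
      norm_num
    have h6 : ((n : ℝ) / 9) ^ (-c) = 9 ^ c * (n : ℝ) ^ (-c) := by
      rw [Real.div_rpow hn0.le (by norm_num), Real.rpow_neg (by norm_num : (0 : ℝ) ≤ 9), div_inv_eq_mul, mul_comm]
    rw [h6] at h2
    have h7 : bn (n + m) * xx ^ (n + m) ≤ (K * (n : ℝ) ^ (-c) * ((bn n : ℝ) * bn m)) * xx ^ (n + m) := by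
      calc bn (n + m) * xx ^ (n + m) ≤ 4320 * SS (n + m) := h1
        _ ≤ 4320 * (C * (9 ^ c * (n : ℝ) ^ (-c)) * (3 * ((3 / 2 * F * (bn n * xx ^ n)) * (4 * (3 / 2) * (bn m * xx ^ m))))) := by
            gcongr
            exact h2.trans (mul_le_mul_of_nonneg_left h5 (by positivity))
        _ = _ := by rw [hK, pow_add]; ring
    have h8 := le_of_mul_le_mul_right h7 (pow_pos hx (n + m))
    refine h8.trans ?_
    have : 0 ≤ (M0 : ℝ) ^ c := by positivity
    gcongr
    linarith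

end Pool.Agent.EVN.T
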