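import Pool.Agent.EVN.Stmt
import Pool.Agent.EVN.T.Tr12
import Pool.Agent.RAT.E.Upper

/-!
Project EVN, final form: from `Goal` to the two-sided power law on the honeycomb lattice and on the lattice `(3,12^2)`, all lengths `m, n ≥ 1`.
-/

namespace Pool.Agent.EVN.T

open Pool.Agent.Hhelper64 Pool.Agent.Hhelper64.Two Pool.Agent.RAT Pool.Agent.Hhelper14 Pool.Agent.Hhelper64.T12
open scoped ENNReal

lemma an_pos' (n : ℕ) : (0 : ℝ) < SAW.an n := by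
  have := SAW.a_pos n
  rwa [SAW.a_eq] at this

/-- `Goal` in real numbers. -/
lemma goal_real (h : Goal) : ∃ c : ℝ, 0 < c ∧ ∃ C : ℝ, 0 < C ∧ ∀ n m : ℕ, 1 ≤ n → n ≤ m →
    (SAW.an (n + m) : ℝ) ≤ C * (n : ℝ) ^ (-c) * ((SAW.an n : ℝ) * SAW.an m) := by
  obtain ⟨c, C, hc, hC, h⟩ := h
  refine ⟨c, hc, C, hC, fun n m hn hnm => ?_⟩
  have h1 := h n m hn hnm
  unfold PP at h1
  have p1 := an_pos' n
  have p2 := an_pos' m
  have e1 : ((SAW.an n : ℝ≥0∞) * (SAW.an m : ℝ≥0∞)) = ENNReal.ofReal ((SAW.an n : ℝ) * SAW.an m) := by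
    rw [ENNReal.ofReal_mul p1.le, ENNReal.ofReal_natCast, ENNReal.ofReal_natCast]
  have e2 : (SAW.an (n + m) : ℝ≥0∞) = ENNReal.ofReal (SAW.an (n + m) : ℝ) := by rw [ENNReal.ofReal_natCast]
  have hn0 : (0 : ℝ) < n := by exact_mod_cast hn
  rw [e1, e2, ← ENNReal.ofReal_div_of_pos (mul_pos p1 p2), ENNReal.ofReal_le_ofReal_iff (by positivity),
    div_le_iff₀ (mul_pos p1 p2)] at h1
  exact h1

/-- The upper bound on both lattices, shorter walk first. -/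
theorem up_both (h : Goal) (L : Set ℂ) (hL : L = honeycomb ∨ L = truncated) :
    ∃ c : ℝ, 0 < c ∧ ∃ C : ℝ, 0 < C ∧ ∀ m n : ℕ, 1 ≤ m → m ≤ n → P2 L m n ≤ C * (m : ℝ) ^ (-c) := by
  obtain ⟨K, hK, -, up⟩ := an_bounds
  have hp : ∃ C : ℝ, 0 < C ∧ ∀ n : ℕ, 1 ≤ n → (SAW.an n : ℝ) ≤ C * (n : ℝ) ^ C * SAW.mu ^ n := ⟨K, hK, up⟩
  obtain ⟨c, hc, hU⟩ := goal_real h
  have hpos := (facts hp L hL).2.1
  refine ⟨c, hc, ?_⟩
  have key : ∃ C : ℝ, 0 < C ∧ ∀ n m : ℕ, 1 ≤ n → n ≤ m →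
      (a L (n + m) : ℝ) ≤ C * (n : ℝ) ^ (-c) * ((a L n : ℝ) * a L m) := by
    rcases hL with rfl | rfl
    · obtain ⟨C, hC, hU⟩ := hU
      refine ⟨C, hC, fun n m hn hnm => ?_⟩
      have := hU n m hn hnm
      simp only [a_hon, SAW.a_eq]
      exact this
    · obtain ⟨C, hC, hU⟩ := tr12 hp hc hU
      refine ⟨C, hC, fun n m hn hnm => ?_⟩
      have := hU n m hn hnm
      have h0 : em d0 ∈ ThreeTwelve.V := em_mem isD_d0
      simp only [a_tr, a_eq_bn h0]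
      exact this
  obtain ⟨C, hC, key⟩ := key
  refine ⟨C, hC, fun m n hm hmn => ?_⟩
  rw [P2_eq L hL, div_le_iff₀ (mul_pos (hpos m) (hpos n))]
  exact key m n hm hmn

/-- **The power law on both lattices**, from `Goal`. -/
theorem power_law (h : Goal) (L : Set ℂ) (hL : L = honeycomb ∨ L = truncated) :
    ∃ c C : ℝ, 0 < c ∧ 0 < C ∧ (∀ n : ℕ, 1 ≤ n → (a L n : ℝ) ≤ C * (n : ℝ) ^ C * muL L ^ n) ∧
      ∀ m n : ℕ, 1 ≤ m → 1 ≤ n → ((min m n : ℕ) : ℝ) ^ (-C) / C ≤ P2 L m n ∧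
        P2 L m n ≤ C * ((min m n : ℕ) : ℝ) ^ (-c) := by
  obtain ⟨K, hK, -, up⟩ := an_bounds
  have hp : ∃ C : ℝ, 0 < C ∧ ∀ n : ℕ, 1 ≤ n → (SAW.an n : ℝ) ≤ C * (n : ℝ) ^ C * SAW.mu ^ n := ⟨K, hK, up⟩
  obtain ⟨-, -, -, -, -, ⟨C₀, hC₀, hup⟩⟩ := facts hp L hL
  obtain ⟨C₁, hC₁, hlow, -⟩ := all_bounds L hL
  obtain ⟨c, hc, C₂, hC₂, hU⟩ := up_both h L hL
  set C : ℝ := max C₀ (max C₁ C₂) with hC
  have g0 : C₀ ≤ C := le_max_left _ _
  have g1 : C₁ ≤ C := (le_max_left _ _).trans (le_max_right _ _)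
  have g2 : C₂ ≤ C := (le_max_right _ _).trans (le_max_right _ _)
  have hC0 : 0 < C := hC₀.trans_le g0
  have main : ∀ m n : ℕ, 1 ≤ m → m ≤ n → (m : ℝ) ^ (-C) / C ≤ P2 L m n ∧ P2 L m n ≤ C * (m : ℝ) ^ (-c) := by
    intro m n hm hmn
    have hm1 : (1 : ℝ) ≤ m := by exact_mod_cast hm
    constructor
    · refine le_trans ?_ (hlow m n hm hmn)
      have : (m : ℝ) ^ (-C) ≤ (m : ℝ) ^ (-C₁) := Real.rpow_le_rpow_of_exponent_le hm1 (by linarith)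
      have h0 : 0 ≤ (m : ℝ) ^ (-C₁) := by positivity
      rw [div_le_div_iff₀ hC0 hC₁]
      calc (m : ℝ) ^ (-C) * C₁ ≤ (m : ℝ) ^ (-C₁) * C₁ := by gcongr
        _ ≤ (m : ℝ) ^ (-C₁) * C := by gcongr
    · refine (hU m n hm hmn).trans ?_
      gcongr
  refine ⟨c, C, hc, hC0, fun n hn => ?_, fun m n hm hn => ?_⟩
  · have hn1 : (1 : ℝ) ≤ n := by exact_mod_cast hn
    have hmu : 0 < muL L := (facts hp L hL).1
    refine (hup n hn).trans ?_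
    gcongr
  · rcases le_total m n with h1 | h1
    · rw [min_eq_left h1]
      exact main m n hm h1
    · rw [min_eq_right h1]
      have := main n m hn h1
      rw [P2_eq L hL, add_comm n m, mul_comm (a L n : ℝ)] at this
      rw [P2_eq L hL]
      exact this

/-- Equal lengths: the probability of Q1. -/
theorem power_law_eq (h : Goal) (L : Set ℂ) (hL : L = honeycomb ∨ L = truncated) :
    ∃ c C : ℝ, 0 < c ∧ 0 < C ∧ ∀ n : ℕ, 1 ≤ n → (n : ℝ) ^ (-C) / C ≤ P L n ∧ P L n ≤ C * (n : ℝ) ^ (-c) := by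
  obtain ⟨c, C, hc, hC, -, h2⟩ := power_law h L hL
  refine ⟨c, C, hc, hC, fun n hn => ?_⟩
  have := h2 n n hn hn
  rw [min_self, P2_self] at this
  exact this

end Pool.Agent.EVN.T
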